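import Mathlib
import Pool.Agent.Helper58.LDD.Final

set_option autoImplicit false

namespace Pool.Agent.Results.MP_599705_an.LandauLowerBound

/-- Landau's constant is at least `13/25`: the image of the unit disc under a holomorphic
function with `f 0 = 0`, `f' 0 = 1` contains an open disc of radius `13/25 = 0.52`. -/
theorem result (f : ℂ → ℂ) (hf : DifferentiableOn ℂ f (Metric.ball (0 : ℂ) 1)) (_h0 : f 0 = 0)
    (h1 : deriv f 0 = 1) :
    ∃ z : ℂ, Metric.ball z (13 / 25 : ℝ) ⊆ f '' Metric.ball (0 : ℂ) 1 := by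
  obtain ⟨w, hw⟩ := Pool.Agent.Helper58.LDD.landau_052 hf h1
  refine ⟨w, ?_⟩
  have : (13 / 25 : ℝ) = 0.52 := by norm_num
  rw [this]
  exact hw

end Pool.Agent.Results.MP_599705_an.LandauLowerBound
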